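import Mathlib

namespace H85.CA
open IsLocalRing RingTheory.Sequence Pointwise

universe u

theorem isLocalRing_quot {R : Type u} [CommRing R] [IsLocalRing R] {x : R}
    (hx : x ∈ maximalIdeal R) : IsLocalRing (R ⧸ Ideal.span {x}) := by
  have : Nontrivial (R ⧸ Ideal.span {x}) := by
    apply Ideal.Quotient.nontrivial_iff.mpr
    intro h
    have : Ideal.span {x} ≤ maximalIdeal R := by
      rw [Ideal.span_singleton_le_iff_mem]; exact hx
    rw [h, top_le_iff] at this
    exact (maximalIdeal.isMaximal R).ne_top this
  exact IsLocalRing.of_surjective' (Ideal.Quotient.mk _) Ideal.Quotient.mk_surjective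

theorem maximalIdeal_quot {R : Type u} [CommRing R] [IsLocalRing R] {x : R}
    [IsLocalRing (R ⧸ Ideal.span {x})] :
    maximalIdeal (R ⧸ Ideal.span {x}) = (maximalIdeal R).map (Ideal.Quotient.mk (Ideal.span {x})) := by
  exact (IsLocalRing.map_maximalIdeal_of_surjective _ Ideal.Quotient.mk_surjective).symm

/-- The maximal ideal of the quotient of a local ring by an element outside the square of
the maximal ideal needs one generator less. -/
theorem spanFinrank_quot {R : Type u} [CommRing R] [IsLocalRing R] [IsNoetherianRing R] {x : R}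
    (hx : x ∈ maximalIdeal R) (hx2 : x ∉ (maximalIdeal R) ^ 2)
    [IsLocalRing (R ⧸ Ideal.span {x})] :
    (maximalIdeal (R ⧸ Ideal.span {x})).spanFinrank + 1 ≤ (maximalIdeal R).spanFinrank := by
  classical
  have hfg := (maximalIdeal R).fg_of_isNoetherianRing
  have hfin : (maximalIdeal R).generators.Finite := Submodule.FG.finite_generators hfg
  have hspan : Ideal.span (maximalIdeal R).generators = maximalIdeal R :=
    (maximalIdeal R).span_generators
  have hcard : (maximalIdeal R).generators.ncard = (maximalIdeal R).spanFinrank :=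
    Submodule.FG.generators_ncard hfg
  set S := hfin.toFinset with hS
  have hSc : (S : Set R) = (maximalIdeal R).generators := hfin.coe_toFinset
  rw [← hSc] at hspan hcard
  have hx' : x ∈ Ideal.span (S : Set R) := by rw [hspan]; exact hx
  obtain ⟨c, hc⟩ := (Submodule.mem_span_finset').mp hx'
  have hmem : ∀ s ∈ S, s ∈ maximalIdeal R := fun s hs => by
    rw [← hspan]; exact Ideal.subset_span hs
  obtain ⟨s, hs⟩ : ∃ s : S, IsUnit (c s) := by
    by_contra hcon
    apply hx2
    rw [← hc, pow_two]
    refine Ideal.sum_mem _ fun s _ => ?_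
    rw [smul_eq_mul]
    exact Ideal.mul_mem_mul ((mem_maximalIdeal _).mpr (fun hu => hcon ⟨s, hu⟩)) (hmem s s.2)
  have hgen : maximalIdeal (R ⧸ Ideal.span {x}) =
      Ideal.span ((Ideal.Quotient.mk (Ideal.span {x})) '' ((S.erase s : Finset R) : Set R)) := by
    rw [maximalIdeal_quot, ← Ideal.map_span]
    apply le_antisymm
    · conv_lhs => rw [← hspan]
      rw [Ideal.map_span, Ideal.span_le]
      rintro _ ⟨t, ht, rfl⟩
      by_cases hts : t = s
      · rw [hts]
        obtain ⟨u, hu⟩ := hs
        have h1 : x = c s * s + ∑ t ∈ Finset.univ.erase s, c t * (t : R) := by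
          rw [← hc, ← Finset.add_sum_erase Finset.univ _ (Finset.mem_univ s)]
          simp [smul_eq_mul]
        have h2 : (s : R) = (↑u⁻¹ : R) * x - (↑u⁻¹ : R) * ∑ t ∈ Finset.univ.erase s, c t * (t : R) := by
          rw [h1, ← hu]
          have : (↑u⁻¹ : R) * (u : R) = 1 := by simp
          linear_combination -(s : R) * this
        have h3 := congrArg (Ideal.Quotient.mk (Ideal.span {x})) h2
        rw [map_sub, map_mul] at h3
        rw [SetLike.mem_coe, h3]
        have : (Ideal.Quotient.mk (Ideal.span {x})) x = 0 := by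
          rw [Ideal.Quotient.eq_zero_iff_mem]; exact Ideal.mem_span_singleton_self x
        rw [this, mul_zero, zero_sub]
        apply Ideal.neg_mem_iff _ |>.mpr
        apply Ideal.mem_map_of_mem
        apply Ideal.mul_mem_left
        refine Ideal.sum_mem _ fun t ht => ?_
        apply Ideal.mul_mem_left
        apply Ideal.subset_span
        rw [Finset.mem_erase] at ht
        rw [Finset.mem_coe, Finset.mem_erase]
        refine ⟨fun h2 => ht.1 (Subtype.ext h2), t.2⟩
      · rw [SetLike.mem_coe]
        apply Ideal.mem_map_of_mem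
        apply Ideal.subset_span
        rw [Finset.mem_coe, Finset.mem_erase]
        exact ⟨hts, ht⟩
    · apply Ideal.map_mono
      rw [Ideal.span_le]
      intro t ht
      rw [Finset.mem_coe, Finset.mem_erase] at ht
      exact hmem t ht.2
  rw [hgen]
  have h1 := Submodule.spanFinrank_span_le_ncard_of_finite (R := R ⧸ Ideal.span {x})
    (s := (Ideal.Quotient.mk (Ideal.span {x})) '' ((S.erase s : Finset R) : Set R))
    ((Finset.finite_toSet _).image _)
  have h2 : ((Ideal.Quotient.mk (Ideal.span {x})) '' ((S.erase s : Finset R) : Set R)).ncard ≤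
      (S.erase (s : R)).card := by
    refine (Set.ncard_image_le (Finset.finite_toSet _)).trans ?_
    rw [Set.ncard_coe_finset]
  have h3 : (S.erase (s : R)).card + 1 = S.card := Finset.card_erase_add_one s.2
  have h4 : S.card = (maximalIdeal R).spanFinrank := by rw [← hcard, Set.ncard_coe_finset]
  have h5 : (Ideal.span ((Ideal.Quotient.mk (Ideal.span {x})) ''
      ((S.erase s : Finset R) : Set R))).spanFinrank ≤ (S.erase (s : R)).card := h1.trans h2
  omega

theorem exists_nat_dim (R : Type u) [CommRing R] [IsLocalRing R] [IsNoetherianRing R] :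
    ∃ n : ℕ, ringKrullDim R = n := by
  obtain ⟨a, ha⟩ := WithBot.ne_bot_iff_exists.mp (ringKrullDim_ne_bot (R := R))
  have h2 := ringKrullDim_ne_top (R := R)
  rw [← ha] at h2
  have h3 : a ≠ ⊤ := fun h => h2 (by rw [h]; rfl)
  obtain ⟨n, hn⟩ := ENat.ne_top_iff_exists.mp h3
  exact ⟨n, by rw [← ha, ← hn]; rfl⟩

theorem regular_quot {R : Type u} [CommRing R] [IsRegularLocalRing R] {x : R}
    (hx : x ∈ maximalIdeal R) (hx2 : x ∉ (maximalIdeal R) ^ 2) :
    IsRegularLocalRing (R ⧸ Ideal.span {x}) ∧
      ringKrullDim (R ⧸ Ideal.span {x}) + 1 = ringKrullDim R := by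
  have := isLocalRing_quot hx
  have h1 := spanFinrank_quot hx hx2
  have h2 : ((maximalIdeal R).spanFinrank : WithBot ℕ∞) = ringKrullDim R :=
    IsRegularLocalRing.spanFinrank_maximalIdeal
  have h3 : ringKrullDim R ≤ ringKrullDim (R ⧸ Ideal.span {x}) + 1 := by
    have := ringKrullDim_le_ringKrullDim_quotient_add_encard (R := R) {x} (by
      rw [IsLocalRing.ringJacobson_eq_maximalIdeal]; simpa using hx)
    simpa using this
  have h4 : ringKrullDim (R ⧸ Ideal.span {x}) ≤ (maximalIdeal (R ⧸ Ideal.span {x})).spanFinrank :=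
    ringKrullDim_le_spanFinrank_maximalIdeal _
  have h5 : (((maximalIdeal (R ⧸ Ideal.span {x})).spanFinrank + 1 : ℕ) : WithBot ℕ∞) ≤ ringKrullDim R := by
    rw [← h2]; exact_mod_cast h1
  obtain ⟨n, hn⟩ := exists_nat_dim (R ⧸ Ideal.span {x})
  rw [hn] at h3 h4
  rw [← h2] at h3 h5
  have h3' : (maximalIdeal R).spanFinrank ≤ n + 1 := by exact_mod_cast h3
  have h4' : n ≤ (maximalIdeal (R ⧸ Ideal.span {x})).spanFinrank := by exact_mod_cast h4
  refine ⟨?_, ?_⟩
  · rw [isRegularLocalRing_iff, hn]
    have : (maximalIdeal (R ⧸ Ideal.span {x})).spanFinrank = n := by omega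
    rw [this]
  · rw [hn, ← h2]
    have : (maximalIdeal R).spanFinrank = n + 1 := by omega
    rw [this]
    norm_cast

/-- In a regular local ring of positive dimension there is an element of the maximal ideal outside
its square and outside all minimal primes. -/
theorem exists_param {R : Type u} [CommRing R] [IsRegularLocalRing R]
    (hd : 0 < ringKrullDim R) : ∃ x ∈ maximalIdeal R, x ∉ (maximalIdeal R) ^ 2 ∧
      ∀ q ∈ minimalPrimes R, x ∉ q := by
  classical
  by_contra hcon
  push Not at hcon
  have hfin : (minimalPrimes R).Finite := minimalPrimes.finite_of_isNoetherianRing R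
  have hsub : ((maximalIdeal R : Ideal R) : Set R) ⊆
      ⋃ i ∈ ((insert ((maximalIdeal R) ^ 2) hfin.toFinset : Finset (Ideal R)) : Set (Ideal R)),
        ((id i : Ideal R) : Set R) := by
    intro x hx
    rw [Set.mem_iUnion₂]
    by_cases h2 : x ∈ (maximalIdeal R) ^ 2
    · exact ⟨(maximalIdeal R) ^ 2, by simp, h2⟩
    · obtain ⟨q, hq, hxq⟩ := hcon x hx h2
      exact ⟨q, by simp [hq], hxq⟩
  rw [Ideal.subset_union_prime ((maximalIdeal R) ^ 2) ((maximalIdeal R) ^ 2)] at hsub
  · obtain ⟨i, hi, hle⟩ := hsub
    rw [Finset.mem_insert] at hi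
    rcases hi with hi | hi
    · subst hi
      have h1 : maximalIdeal R ≤ maximalIdeal R • maximalIdeal R := by
        simpa [pow_two] using hle
      have h2 : maximalIdeal R = ⊥ :=
        Submodule.eq_bot_of_le_smul_of_le_jacobson_bot (maximalIdeal R) (maximalIdeal R)
          (maximalIdeal R).fg_of_isNoetherianRing h1 (IsLocalRing.maximalIdeal_le_jacobson _)
      have h3 : ringKrullDim R = 0 := by
        rw [← IsRegularLocalRing.spanFinrank_maximalIdeal (R := R), h2]
        simp
      rw [h3] at hd
      exact lt_irrefl _ hd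
    · rw [Set.Finite.mem_toFinset] at hi
      have h1 : i.IsPrime := hi.1.1
      have h2 : i = maximalIdeal R := le_antisymm (IsLocalRing.le_maximalIdeal h1.ne_top) hle
      have h3 : (maximalIdeal R).height = 0 := by
        rw [← h2]
        exact Ideal.height_eq_zero_iff.mpr hi
      have h4 := IsLocalRing.maximalIdeal_height_eq_ringKrullDim (R := R)
      rw [h3] at h4
      rw [← h4] at hd
      exact lt_irrefl _ hd
  · intro i hi hia _
    rw [Finset.mem_insert] at hi
    rcases hi with hi | hi
    · exact absurd hi hia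
    · rw [Set.Finite.mem_toFinset] at hi
      exact hi.1.1

theorem regular_local_seq (d : ℕ) : ∀ (R : Type u) [CommRing R] [IsRegularLocalRing R],
    ringKrullDim R = d → IsDomain R ∧ ∃ rs : List R, rs.length = d ∧
      (∀ r ∈ rs, r ∈ maximalIdeal R) ∧ IsWeaklyRegular R rs := by
  induction d with
  | zero =>
    intro R _ _ hd
    have h2 : (maximalIdeal R).spanFinrank = 0 := by
      have := IsRegularLocalRing.spanFinrank_maximalIdeal (R := R)
      rw [hd] at this
      exact_mod_cast this
    have h3 : maximalIdeal R = ⊥ := by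
      rwa [Submodule.spanFinrank_eq_zero_iff_eq_bot
        (maximalIdeal R).fg_of_isNoetherianRing] at h2
    have h4 : IsField R := IsLocalRing.isField_iff_maximalIdeal_eq.mpr h3
    exact ⟨h4.isDomain, [], rfl, by simp, by simp⟩
  | succ d ih =>
    intro R _ _ hd
    obtain ⟨x, hx, hx2, hxq⟩ := exists_param (R := R) (by rw [hd]; exact_mod_cast Nat.succ_pos d)
    obtain ⟨hreg, hdim⟩ := regular_quot hx hx2
    have hd' : ringKrullDim (R ⧸ Ideal.span {x}) = d := by
      obtain ⟨n, hn⟩ := exists_nat_dim (R ⧸ Ideal.span {x})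
      rw [hn, hd] at hdim
      have : n + 1 = d + 1 := by exact_mod_cast hdim
      rw [hn]
      have : n = d := by omega
      rw [this]
    obtain ⟨hdom, rs, hlen, hmem, hrs⟩ := ih (R ⧸ Ideal.span {x}) hd'
    have hprime : (Ideal.span {x}).IsPrime := (Ideal.Quotient.isDomain_iff_prime _).mp hdom
    obtain ⟨q, hq, hqx⟩ := Ideal.exists_minimalPrimes_le (I := (⊥ : Ideal R))
      (J := Ideal.span {x}) bot_le
    have hqp : q.IsPrime := hq.1.1
    have hxnq : x ∉ q := hxq q hq
    have hqbot : q = ⊥ := by
      apply Submodule.eq_bot_of_le_smul_of_le_jacobson_bot (Ideal.span {x}) q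
          q.fg_of_isNoetherianRing
      · intro y hy
        obtain ⟨z, rfl⟩ := Ideal.mem_span_singleton'.mp (hqx hy)
        have hz : z ∈ q := (hqp.mem_or_mem hy).resolve_right hxnq
        rw [mul_comm, smul_eq_mul]
        exact Ideal.mul_mem_mul (Ideal.mem_span_singleton_self x) hz
      · refine le_trans ?_ (IsLocalRing.maximalIdeal_le_jacobson _)
        rw [Ideal.span_singleton_le_iff_mem]; exact hx
    have hR : IsDomain R := by
      rw [hqbot] at hqp
      exact IsDomain.of_bot_isPrime R
    refine ⟨hR, ?_⟩
    have hx0 : x ≠ 0 := fun h => hxnq (by rw [h]; exact q.zero_mem)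
    choose f hf using (Ideal.Quotient.mk_surjective (I := Ideal.span {x}))
    refine ⟨x :: rs.map f, by simp [hlen], ?_, ?_⟩
    · intro r hr
      rw [List.mem_cons] at hr
      rcases hr with rfl | hr
      · exact hx
      · obtain ⟨s, hs, rfl⟩ := List.mem_map.mp hr
        have h1 := hmem s hs
        rw [mem_maximalIdeal, mem_nonunits_iff] at h1 ⊢
        intro hu
        apply h1
        rw [← hf s]
        exact hu.map _
    · rw [isWeaklyRegular_cons_iff']
      constructor
      · intro a b hab
        simp only [smul_eq_mul] at hab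
        exact mul_left_cancel₀ hx0 hab
      · have e : List.map (Ideal.Quotient.mk (Ideal.span {x})) (List.map f rs) = rs := by
          rw [List.map_map]
          conv_rhs => rw [← List.map_id rs]
          apply List.map_congr_left
          intro a _
          exact hf a
        rw [e]
        have he : (x • (⊤ : Submodule R R)) = Ideal.span {x} := by
          rw [← Submodule.ideal_span_singleton_smul]
          simp
        have e2 : (R ⧸ Ideal.span {x}) ≃ₗ[R] QuotSMulTop x R :=
          Submodule.quotEquivOfEq _ _ he.symm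
        have e3 : (R ⧸ Ideal.span {x}) ≃ₗ[R ⧸ Ideal.span {x}] QuotSMulTop x R :=
          { e2 with
            map_smul' := by
              intro r y
              obtain ⟨r, rfl⟩ := Ideal.Quotient.mk_surjective r
              exact e2.map_smul r y }
        exact (e3.isWeaklyRegular_congr rs).mp hrs

end H85.CA
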