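import Mathlib
import Pool.Agent.H85.CA.Reg

namespace H85.CA
open IsLocalRing RingTheory.Sequence Pointwise CategoryTheory Abelian Limits

universe u

/-- An associated prime of M is contained in a strictly larger one of M / x M, for x regular. -/
theorem ass_step {R : Type u} [CommRing R] [IsNoetherianRing R] [IsLocalRing R] {M : Type u}
    [AddCommGroup M] [Module R M] [Module.Finite R M] {x : R} (hx : x ∈ maximalIdeal R)
    (hreg : IsSMulRegular M x) {p : Ideal R} (hp : p ∈ associatedPrimes R M) :
    ∃ q ∈ associatedPrimes R (QuotSMulTop x M), p ≤ q ∧ x ∈ q ∧ x ∉ p := by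
  obtain ⟨hpp, z, hz⟩ := (isAssociatedPrime_iff).mp hp
  -- the submodule of elements killed by p
  let N : Submodule R M :=
    { carrier := {y | ∀ a ∈ p, a • y = 0}
      add_mem' := by
        intro y y' hy hy' a ha
        rw [smul_add, hy a ha, hy' a ha, add_zero]
      zero_mem' := by
        intro a _
        exact smul_zero a
      smul_mem' := by
        intro c y hy a ha
        rw [smul_comm, hy a ha, smul_zero] }
  have hzN : z ∈ N := by
    intro a ha
    rw [hz, Submodule.mem_colon_singleton] at ha
    simpa using ha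
  have hz0 : z ≠ 0 := by
    rintro rfl
    apply hpp.ne_top
    rw [hz]; simp
  have hN : ¬ N ≤ x • (⊤ : Submodule R M) := by
    intro hle
    have h1 : N ≤ Ideal.span {x} • N := by
      intro y hy
      obtain ⟨y', -, rfl⟩ := hle hy
      rw [Submodule.ideal_span_singleton_smul]
      refine Submodule.smul_mem_pointwise_smul y' x N ?_
      intro a ha
      have := hy a ha
      simp only [DistribSMul.toLinearMap_apply] at this
      rw [smul_comm] at this
      exact hreg (by simpa using this)
    have h2 : N = ⊥ := by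
      apply Submodule.eq_bot_of_le_smul_of_le_jacobson_bot (Ideal.span {x}) N
        (IsNoetherian.noetherian N) h1
      refine le_trans ?_ (IsLocalRing.maximalIdeal_le_jacobson _)
      rw [Ideal.span_singleton_le_iff_mem]; exact hx
    rw [h2] at hzN
    exact hz0 hzN
  obtain ⟨y, hy, hyx⟩ := SetLike.not_le_iff_exists.mp hN
  have hy0 : (Submodule.Quotient.mk y : QuotSMulTop x M) ≠ 0 := by
    rw [Ne, Submodule.Quotient.mk_eq_zero]; exact hyx
  obtain ⟨q, hq, hle⟩ := exists_le_isAssociatedPrime_of_isNoetherianRing R
    (Submodule.Quotient.mk y : QuotSMulTop x M) hy0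
  refine ⟨q, hq, ?_, ?_, ?_⟩
  · intro a ha
    apply hle
    rw [Submodule.mem_colon_singleton, ← Submodule.Quotient.mk_smul, hy a ha]
    simp
  · apply hle
    rw [Submodule.mem_colon_singleton, ← Submodule.Quotient.mk_smul, Submodule.mem_bot,
      Submodule.Quotient.mk_eq_zero]
    exact Submodule.smul_mem_pointwise_smul y x ⊤ trivial
  · intro hxp
    exact hz0 (hreg (by simpa using hzN x hxp))

/-- Depth is at most the dimension of every associated prime. -/
theorem length_le_dim {R : Type u} [CommRing R] [IsNoetherianRing R] [IsLocalRing R]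
    (rs : List R) : ∀ {M : Type u}
    [AddCommGroup M] [Module R M] [Module.Finite R M], (∀ r ∈ rs, r ∈ maximalIdeal R) →
    IsWeaklyRegular M rs → ∀ {p : Ideal R}, p ∈ associatedPrimes R M →
    (rs.length : WithBot ℕ∞) ≤ ringKrullDim (R ⧸ p) := by
  induction rs with
  | nil =>
    intro M _ _ _ _ _ p hp
    have : p.IsPrime := hp.1
    simpa using ringKrullDim_nonneg_of_nontrivial (R := R ⧸ p)
  | cons x rs ih =>
    intro M _ _ _ hmem hrs p hp
    rw [isWeaklyRegular_cons_iff] at hrs
    obtain ⟨q, hq, hpq, hxq, hxp⟩ := ass_step (hmem x (by simp)) hrs.1 hp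
    have h1 := ih (fun r hr => hmem r (by simp [hr])) hrs.2 hq
    have hpp : p.IsPrime := hp.1
    have h2 : ringKrullDim (R ⧸ q) + 1 ≤ ringKrullDim (R ⧸ p) := by
      refine ringKrullDim_succ_le_of_surjective (Ideal.Quotient.factor hpq)
        (Ideal.Quotient.factor_surjective hpq) (r := Ideal.Quotient.mk p x) ?_ ?_
      · rw [mem_nonZeroDivisors_iff_ne_zero, Ne, Ideal.Quotient.eq_zero_iff_mem]
        exact hxp
      · rw [Ideal.Quotient.factor_mk, Ideal.Quotient.eq_zero_iff_mem]
        exact hxq
    refine le_trans ?_ h2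
    rw [List.length_cons, Nat.cast_add, Nat.cast_one]
    gcongr

theorem dim_quot_le_supportDim {R : Type u} [CommRing R] {M : Type u}
    [AddCommGroup M] [Module R M] {p : Ideal R} [hp : p.IsPrime]
    (h : (⟨p, hp⟩ : PrimeSpectrum R) ∈ Module.support R M) :
    ringKrullDim (R ⧸ p) ≤ Module.supportDim R M := by
  rw [ringKrullDim_quotient, Module.supportDim]
  have hsub : PrimeSpectrum.zeroLocus (p : Set R) ⊆ Module.support R M := by
    intro q hq
    exact Module.mem_support_mono (p := ⟨p, hp⟩) hq h
  exact Order.krullDim_le_of_strictMono (Set.inclusion hsub) (fun a b hab => hab)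

theorem mem_support_of_mem_ass {R : Type u} [CommRing R] [IsNoetherianRing R] {M : Type u}
    [AddCommGroup M] [Module R M] {p : Ideal R} (hp : p ∈ associatedPrimes R M) :
    (⟨p, hp.1⟩ : PrimeSpectrum R) ∈ Module.support R M := by
  obtain ⟨hpp, z, hz⟩ := (isAssociatedPrime_iff).mp hp
  rw [Module.mem_support_iff_exists_annihilator]
  refine ⟨z, ?_⟩
  intro a ha
  show a ∈ p
  rw [hz, Submodule.mem_colon_singleton, Submodule.mem_bot]
  exact (Submodule.mem_annihilator_span_singleton z a).mp ha

theorem ext_step {R : Type u} [CommRing R] (N M : ModuleCat.{u} R) {a : R}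
    (hreg : IsSMulRegular M a) (i : ℕ) (h1 : Subsingleton (Ext N M i))
    (h2 : Subsingleton (Ext N M (i + 1))) :
    Subsingleton (Ext N (ModuleCat.of R (QuotSMulTop a M)) i) := by
  have zero1 := AddCommGrpCat.isZero_of_iff_subsingleton.mpr h1
  have zero2 := AddCommGrpCat.isZero_of_iff_subsingleton.mpr h2
  exact AddCommGrpCat.subsingleton_of_isZero <| ShortComplex.Exact.isZero_of_both_zeros
    ((Ext.covariant_sequence_exact₃' N hreg.smulShortComplex_shortExact) i (i + 1) rfl)
    (zero1.eq_zero_of_src _) (zero2.eq_zero_of_tgt _)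

/-- Exchange: dividing by a regular element drops the depth by at most one (Rees). -/
theorem exchange {R : Type u} [CommRing R] [IsLocalRing R] [IsNoetherianRing R] {M : Type u}
    [AddCommGroup M] [Module R M] [Module.Finite R M] [Nontrivial M] {n : ℕ} {rs : List R}
    (hlen : rs.length = n + 1) (hmem : ∀ r ∈ rs, r ∈ maximalIdeal R) (hrs : IsRegular M rs)
    {a : R} (ha : a ∈ maximalIdeal R) (hreg : IsSMulRegular M a) :
    ∃ rs' : List R, rs'.length = n ∧ (∀ r ∈ rs', r ∈ maximalIdeal R) ∧
      IsRegular (QuotSMulTop a M) rs' := by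
  have hlt : ∀ (M' : Type u) [AddCommGroup M'] [Module R M'] [Module.Finite R M'] [Nontrivial M'],
      (maximalIdeal R) • (⊤ : Submodule R M') < ⊤ := by
    intro M' _ _ _ _
    exact lt_of_le_of_ne le_top
      (Submodule.top_ne_ideal_smul_of_le_jacobson_annihilator
        (maximalIdeal_le_jacobson _)).symm
  have T1 := ModuleCat.exists_isRegular_tfae (maximalIdeal R) (n + 1) (ModuleCat.of R M)
    (hlt M)
  have T1' := T1.out 1 3
  have t1 := T1'.mpr ⟨rs, hlen, hmem, hrs⟩
  have hnt : Nontrivial (QuotSMulTop a M) := nontrivial_quotSMulTop_of_mem_maximalIdeal M ha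
  have T2 := ModuleCat.exists_isRegular_tfae (maximalIdeal R) n
    (ModuleCat.of R (QuotSMulTop a M)) (hlt _)
  have T2' := T2.out 1 3
  apply T2'.mp
  intro i hi
  exact ext_step _ (ModuleCat.of R M) hreg i (t1 i (by omega)) (t1 (i + 1) (by omega))

theorem dim_le_dim_quot_add {R : Type u} [CommRing R] [IsLocalRing R] [IsNoetherianRing R]
    (as : List R) : ∀ {M : Type u} [AddCommGroup M] [Module R M] [Module.Finite R M],
    (∀ a ∈ as, a ∈ maximalIdeal R) → Module.supportDim R M ≤
      Module.supportDim R (M ⧸ (Ideal.ofList as • (⊤ : Submodule R M))) + as.length := by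
  induction as with
  | nil =>
    intro M _ _ _ _
    have e : (M ⧸ (Ideal.ofList ([] : List R) • (⊤ : Submodule R M))) ≃ₗ[R] M :=
      Submodule.quotEquivOfEqBot _ (by rw [Ideal.ofList_nil, Submodule.bot_smul])
    rw [Module.supportDim_eq_of_equiv (R := R) e]
    simp
  | cons a as ih =>
    intro M _ _ _ has
    have ha : a ∈ maximalIdeal R := has a (by simp)
    rw [Module.supportDim_eq_of_equiv (R := R)
      (Submodule.quotOfListConsSMulTopEquivQuotSMulTopInner M a as)]
    have h1 := Module.supportDim_le_supportDim_quotSMulTop_succ (M := M) ha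
    have h2 := ih (M := QuotSMulTop a M) (fun b hb => has b (by simp [hb]))
    refine h1.trans ?_
    rw [List.length_cons, Nat.cast_add, Nat.cast_one, ← add_assoc]
    gcongr

theorem supportDim_nat {R : Type u} [CommRing R] [IsLocalRing R] [IsNoetherianRing R]
    (M : Type u) [AddCommGroup M] [Module R M] [Module.Finite R M] [Nontrivial M] :
    ∃ n : ℕ, Module.supportDim R M = n := by
  have h1 : Module.supportDim R M ≠ ⊥ := Module.supportDim_ne_bot_of_nontrivial R M
  obtain ⟨d, hd⟩ := exists_nat_dim R
  have h2 : Module.supportDim R M ≤ d := by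
    rw [← hd]; exact Module.supportDim_le_ringKrullDim R M
  obtain ⟨a, ha⟩ := WithBot.ne_bot_iff_exists.mp h1
  rw [← ha] at h2 ⊢
  have h3 : a ≤ (d : ℕ∞) := by exact_mod_cast h2
  obtain ⟨n, hn⟩ := ENat.ne_top_iff_exists.mp (ne_top_of_le_ne_top (ENat.natCast_ne_top d) h3)
  exact ⟨n, by rw [← hn]; rfl⟩

/-- In a Cohen-Macaulay module a part of a system of parameters is a regular sequence. -/
theorem cm_regular {R : Type u} [CommRing R] [IsLocalRing R] [IsNoetherianRing R] (as : List R) :
    ∀ {M : Type u} [AddCommGroup M] [Module R M] [Module.Finite R M] [Nontrivial M] {n : ℕ}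
    {rs : List R}, rs.length = n → (∀ r ∈ rs, r ∈ maximalIdeal R) → IsRegular M rs →
    Module.supportDim R M = n → (∀ a ∈ as, a ∈ maximalIdeal R) →
    Module.supportDim R (M ⧸ (Ideal.ofList as • (⊤ : Submodule R M))) + as.length ≤ n →
    IsWeaklyRegular M as := by
  induction as with
  | nil => intro M _ _ _ _ n rs _ _ _ _ _ _; simp
  | cons a as ih =>
    intro M _ _ _ _ n rs hlen hmem hrs hdim has hle
    have ha : a ∈ maximalIdeal R := has a (by simp)
    have hnt : Nontrivial (QuotSMulTop a M) := nontrivial_quotSMulTop_of_mem_maximalIdeal M ha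
    have e1 := Module.supportDim_eq_of_equiv (R := R)
      (Submodule.quotOfListConsSMulTopEquivQuotSMulTopInner M a as)
    -- dimension of M/aM
    have hle2 : Module.supportDim R (QuotSMulTop a M) + 1 ≤ n := by
      have h1 : Module.supportDim R (QuotSMulTop a M) ≤
          Module.supportDim R (QuotSMulTop a M ⧸
            (Ideal.ofList as • (⊤ : Submodule R (QuotSMulTop a M)))) + as.length :=
        dim_le_dim_quot_add as (fun b hb => has b (by simp [hb]))
      refine le_trans ?_ hle
      rw [e1, List.length_cons, Nat.cast_add, Nat.cast_one, ← add_assoc]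
      gcongr
    have hreg : IsSMulRegular M a := by
      by_contra hcon
      have hz : ∃ x : M, x ≠ 0 ∧ a • x = 0 := by
        by_contra hno
        push Not at hno
        apply hcon
        intro x y hxy
        by_contra hne
        exact hno (x - y) (sub_ne_zero.mpr hne) (by
          rw [smul_sub]; exact sub_eq_zero.mpr hxy)
      have hmem2 : a ∈ ⋃ p ∈ associatedPrimes R M, (p : Set R) := by
        rw [biUnion_associatedPrimes_eq_zero_divisors]; exact hz
      rw [Set.mem_iUnion₂] at hmem2
      obtain ⟨p, hp, hap⟩ := hmem2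
      have hpp : p.IsPrime := hp.1
      have h1 : (rs.length : WithBot ℕ∞) ≤ ringKrullDim (R ⧸ p) :=
        length_le_dim rs hmem hrs.1 hp
      have h2 : ringKrullDim (R ⧸ p) ≤ Module.supportDim R (QuotSMulTop a M) := by
        apply dim_quot_le_supportDim
        rw [Module.support_quotSMulTop]
        exact ⟨mem_support_of_mem_ass hp, by simpa using hap⟩
      rw [hlen] at h1
      have h3 := h1.trans h2
      have h4 : ((n : ℕ) : WithBot ℕ∞) + 1 ≤ n := le_trans (by gcongr) hle2
      have h5 : n + 1 ≤ n := by exact_mod_cast h4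
      omega
    have hdimM := Module.supportDim_quotSMulTop_succ_eq_supportDim hreg ha
    obtain ⟨n', hn'⟩ := supportDim_nat (R := R) (QuotSMulTop a M)
    rw [hn', hdim] at hdimM
    have hnn : n' + 1 = n := by exact_mod_cast hdimM
    obtain ⟨rs', hlen', hmem', hrs'⟩ := exchange (n := n') (by omega) hmem hrs ha hreg
    rw [isWeaklyRegular_cons_iff]
    refine ⟨hreg, ih hlen' hmem' hrs' hn' (fun b hb => has b (by simp [hb])) ?_⟩
    rw [e1] at hle
    obtain ⟨k, hk⟩ : ∃ k : ℕ, Module.supportDim R (QuotSMulTop a M ⧸
            (Ideal.ofList as • (⊤ : Submodule R (QuotSMulTop a M)))) = k := by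
      have hnt2 : Nontrivial (QuotSMulTop a M ⧸
            (Ideal.ofList as • (⊤ : Submodule R (QuotSMulTop a M)))) := by
        apply Submodule.Quotient.nontrivial_iff.mpr
        apply Ne.symm
        apply Submodule.top_ne_ideal_smul_of_le_jacobson_annihilator
        refine le_trans ?_ (maximalIdeal_le_jacobson _)
        rw [Ideal.ofList, Ideal.span_le]
        intro b hb
        exact has b (by simp at hb; simp [hb])
      exact supportDim_nat _
    rw [hk] at hle ⊢
    rw [List.length_cons] at hle
    have h6 : k + (as.length + 1) ≤ n := by exact_mod_cast hle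
    have h7 : k + as.length ≤ n' := by omega
    exact_mod_cast h7

end H85.CA
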