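import Mathlib
import Pool.Agent.H85.CA.CM

namespace H85.CA
open IsLocalRing RingTheory.Sequence Pointwise

universe u

/-- height plus coheight is at most the dimension. -/
theorem dim_quot_add_le {R : Type u} [CommRing R] [IsLocalRing R] [IsNoetherianRing R]
    (I : Ideal R) (r : ℕ) (h : ∀ P : Ideal R, P.IsPrime → I ≤ P → (r : ℕ∞) ≤ P.height) :
    ringKrullDim (R ⧸ I) + r ≤ ringKrullDim R := by
  by_cases hI : I = ⊤
  · have : Subsingleton (R ⧸ I) := Ideal.Quotient.subsingleton_iff.mpr hI
    rw [ringKrullDim_eq_bot_of_subsingleton]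
    simp
  have hnt : Nontrivial (R ⧸ I) := Ideal.Quotient.nontrivial_iff.mpr hI
  have : IsLocalRing (R ⧸ I) := IsLocalRing.of_surjective' (Ideal.Quotient.mk _)
    Ideal.Quotient.mk_surjective
  obtain ⟨n, hn⟩ := exists_nat_dim (R ⧸ I)
  have h1 : (n : WithBot ℕ∞) ≤ Order.krullDim (PrimeSpectrum (R ⧸ I)) := by
    rw [← hn]; rfl
  obtain ⟨l, hl⟩ := Order.le_krullDim_iff.mp h1
  have key : ∀ i : ℕ, ∀ hi : i < l.length + 1,
      ((r + i : ℕ) : ℕ∞) ≤ ((l ⟨i, hi⟩).asIdeal.comap (Ideal.Quotient.mk I)).height := by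
    intro i
    induction i with
    | zero =>
      intro hi
      have hp : ((l ⟨0, hi⟩).asIdeal.comap (Ideal.Quotient.mk I)).IsPrime :=
        (l ⟨0, hi⟩).isPrime.comap _
      have := h _ hp (by
        intro x hx
        rw [Ideal.mem_comap, Ideal.Quotient.eq_zero_iff_mem.mpr hx]
        exact Ideal.zero_mem _)
      simpa using this
    | succ i ih =>
      intro hi
      have h2 := ih (by omega)
      have hp1 : ((l ⟨i, by omega⟩).asIdeal.comap (Ideal.Quotient.mk I)).IsPrime :=
        (l ⟨i, by omega⟩).isPrime.comap _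
      have hp2 : ((l ⟨i + 1, hi⟩).asIdeal.comap (Ideal.Quotient.mk I)).IsPrime :=
        (l ⟨i + 1, hi⟩).isPrime.comap _
      have hlt : (l ⟨i, by omega⟩) < (l ⟨i + 1, hi⟩) := l.strictMono (by simp)
      have hlt2 : ((l ⟨i, by omega⟩).asIdeal.comap (Ideal.Quotient.mk I)) <
          ((l ⟨i + 1, hi⟩).asIdeal.comap (Ideal.Quotient.mk I)) := by
        refine lt_of_le_of_ne (Ideal.comap_mono hlt.le) ?_
        intro heq
        apply hlt.ne
        apply PrimeSpectrum.ext
        exact Ideal.comap_injective_of_surjective _ Ideal.Quotient.mk_surjective heq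
      have h3 := Ideal.height_add_one_le_of_lt_of_isPrime hlt2
      refine le_trans ?_ h3
      have : ((r + (i + 1) : ℕ) : ℕ∞) = ((r + i : ℕ) : ℕ∞) + 1 := by push_cast; ring
      rw [this]
      gcongr
  subst hl
  have h4 := key l.length (by omega)
  set P := ((l ⟨l.length, by omega⟩).asIdeal.comap (Ideal.Quotient.mk I)) with hP
  have hPp : P.IsPrime := (l ⟨l.length, by omega⟩).isPrime.comap _
  have h5 : ((P.height : ℕ∞) : WithBot ℕ∞) ≤ ringKrullDim R :=
    Ideal.height_le_ringKrullDim_of_ne_top hPp.ne_top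
  rw [hn]
  refine le_trans ?_ h5
  have h6 : (((r + l.length : ℕ) : ℕ∞) : WithBot ℕ∞) ≤ ((P.height : ℕ∞) : WithBot ℕ∞) := by
    exact_mod_cast h4
  refine le_trans (le_of_eq ?_) h6
  rw [add_comm]
  norm_cast

/-- c + 1 elements of a regular local ring generating an ideal of height at least c + 1
form a regular sequence. -/
theorem regular_of_height {R : Type u} [CommRing R] [IsRegularLocalRing R] (as : List R)
    (hmem : ∀ a ∈ as, a ∈ maximalIdeal R)
    (h : ∀ P : Ideal R, P.IsPrime → (∀ a ∈ as, a ∈ P) → (as.length : ℕ∞) ≤ P.height) :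
    IsWeaklyRegular R as := by
  obtain ⟨d, hd⟩ := exists_nat_dim R
  obtain ⟨-, rs, hlen, hrmem, hrs⟩ := regular_local_seq d R hd
  have hrs' : IsRegular R rs := IsRegular.of_isWeaklyRegular_of_mem_maximalIdeal R hrmem hrs
  refine cm_regular as hlen hrmem hrs' (by rw [Module.supportDim_self_eq_ringKrullDim, hd]) hmem ?_
  have h1 := dim_quot_add_le (Ideal.ofList as) as.length (by
    intro P hP hle
    refine h P hP fun a ha => hle ?_
    exact Ideal.subset_span ha)
  rw [← hd]
  refine le_trans (le_of_eq ?_) h1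
  have e : (Ideal.ofList as • (⊤ : Submodule R R)) = Ideal.ofList as := by
    simp
  rw [e, Module.supportDim_quotient_eq_ringKrullDim]

theorem unmixed_local {R : Type u} [CommRing R] [IsRegularLocalRing R] (as : List R) (b : R)
    (hmem : ∀ a ∈ as, a ∈ maximalIdeal R) (hb : b ∈ maximalIdeal R)
    (h : ∀ P : Ideal R, P.IsPrime → (∀ a ∈ as, a ∈ P) → b ∈ P →
      ((as.length + 1 : ℕ) : ℕ∞) ≤ P.height) {f : R} (hf : b * f ∈ Ideal.ofList as) :
    f ∈ Ideal.ofList as := by
  have h1 : IsWeaklyRegular R (as ++ [b]) := by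
    apply regular_of_height
    · intro a ha
      rw [List.mem_append, List.mem_singleton] at ha
      rcases ha with ha | rfl
      · exact hmem a ha
      · exact hb
    · intro P hP hPa
      have := h P hP (fun a ha => hPa a (by simp [ha])) (hPa b (by simp))
      simpa using this
  rw [isWeaklyRegular_append_iff, isWeaklyRegular_singleton_iff] at h1
  have h2 := h1.2
  have e : (Ideal.ofList as • (⊤ : Submodule R R)) = Ideal.ofList as := by
    simp
  rw [e] at h2
  have h3 : b • (Submodule.Quotient.mk f : R ⧸ Ideal.ofList as) =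
      b • (0 : R ⧸ Ideal.ofList as) := by
    rw [smul_zero, ← Submodule.Quotient.mk_smul, Submodule.Quotient.mk_eq_zero]
    exact hf
  have h4 := h2 h3
  rwa [Submodule.Quotient.mk_eq_zero] at h4

/-- Unmixedness (Macaulay) in regular rings: if all primes containing c elements and b have
height at least c + 1, then b is a nonzerodivisor modulo the c elements. -/
theorem unmixed {R : Type u} [CommRing R] [IsRegularRing R] {c : ℕ} (μ : Fin c → R) (b : R)
    (h : ∀ P : Ideal R, P.IsPrime → (∀ i, μ i ∈ P) → b ∈ P → ((c + 1 : ℕ) : ℕ∞) ≤ P.height)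
    {f : R} (hf : b * f ∈ Ideal.span (Set.range μ)) : f ∈ Ideal.span (Set.range μ) := by
  apply Ideal.mem_of_localization_maximal
  intro P hPm
  have hP : P.IsPrime := hPm.isPrime
  set S := Localization.AtPrime P
  set φ := algebraMap R S
  have hmap : Ideal.map φ (Ideal.span (Set.range μ)) = Ideal.ofList (List.ofFn (φ ∘ μ)) := by
    rw [Ideal.map_span, Ideal.ofList]
    congr 1
    ext x
    simp [List.mem_ofFn]
  have hf' : φ b * φ f ∈ Ideal.map φ (Ideal.span (Set.range μ)) := by
    rw [← map_mul]; exact Ideal.mem_map_of_mem φ hf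
  by_cases hin : (∀ i, μ i ∈ P)
  · by_cases hbP : b ∈ P
    · rw [hmap] at hf' ⊢
      refine unmixed_local _ (φ b) ?_ ?_ ?_ hf'
      · intro a ha
        rw [List.mem_ofFn] at ha
        obtain ⟨i, rfl⟩ := ha
        exact (IsLocalization.AtPrime.to_map_mem_maximal_iff S P (μ i)).mpr (hin i)
      · exact (IsLocalization.AtPrime.to_map_mem_maximal_iff S P b).mpr hbP
      · intro Q hQ hQa hQb
        rw [List.length_ofFn]
        have h1 := h (Q.comap φ) (hQ.comap φ) (fun i => by
          rw [Ideal.mem_comap]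
          exact hQa _ (by rw [List.mem_ofFn]; exact ⟨i, rfl⟩)) (by
          rw [Ideal.mem_comap]; exact hQb)
        rw [← IsLocalization.height_under P.primeCompl Q]
        exact h1
    · have hu : IsUnit (φ b) := (IsLocalization.AtPrime.isUnit_to_map_iff S P b).mpr hbP
      obtain ⟨v, hv⟩ := hu.exists_left_inv
      have : φ f = v * (φ b * φ f) := by rw [← mul_assoc, hv, one_mul]
      rw [this]
      exact Ideal.mul_mem_left _ _ hf'
  · push Not at hin
    obtain ⟨i, hi⟩ := hin
    have hu : IsUnit (φ (μ i)) := (IsLocalization.AtPrime.isUnit_to_map_iff S P (μ i)).mpr hi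
    have htop : Ideal.map φ (Ideal.span (Set.range μ)) = ⊤ :=
      Ideal.eq_top_of_isUnit_mem _ (Ideal.mem_map_of_mem φ (Ideal.subset_span ⟨i, rfl⟩)) hu
    rw [htop]; trivial

/-- L3: the same for polynomial rings over a field. -/
theorem L3 {k : Type u} [Field k] {σ : Type u} [Finite σ] {c : ℕ}
    (μ : Fin c → MvPolynomial σ k) (b : MvPolynomial σ k)
    (h : ∀ P : Ideal (MvPolynomial σ k), P.IsPrime → (∀ i, μ i ∈ P) → b ∈ P →
      ((c + 1 : ℕ) : ℕ∞) ≤ P.height)
    {f : MvPolynomial σ k} (hf : b * f ∈ Ideal.span (Set.range μ)) :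
    f ∈ Ideal.span (Set.range μ) := by
  exact unmixed μ b h hf

end H85.CA
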